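import Pool.Agent.N931.PN.Stm5
import Pool.Agent.N954.PN.VF
import Pool.Agent.N531.PN.VWa

/-!
Project PN (helper931), part PN/EV: long excursion of vertices behind a block at an end of the
path.
-/

set_option autoImplicit false

namespace Pool.Agent.N263.PN.EV

open H974 H12S H389NS H984N H984P H342P Finset
open Pool.Agent.N116.EW Pool.Agent.N931.PN
open Pool.Agent.N954.PN (mem_blk face_blk adj_blk last_exit dlast_exit dual_dich grid_join reach_clu)
open Pool.Agent.N531.PN.VW (sd_le le_sd wired_bottom wired_left wired_top wir_clu bd_of_not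
  outF_far exitP')

/-- The half line conditions at `z`. -/
structure HL (D : Dm) (z : Vtx) (R : ℕ) : Prop where
  /-- vertices of the rectangle at an edge outside of the rectangle on the wired side -/
  wired : ∀ (F : Finset Edg) (u : Vtx), inR D.l D.r 0 D.h u → ∀ g : Edg, g ∈ blk z R →
    g ∉ D.edges → (tgt g).1 ≤ z.1 → (src g = u ∨ tgt g = u) → u ∈ D.clu F
  /-- the edges outside of the rectangle on the free side are joined -/
  free : ∀ g g' : Edg, g ∈ blk z R → g ∉ D.edges → z.1 < (tgt g).1 → g' ∈ blk z R →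
    g' ∉ D.edges → z.1 < (tgt g').1 →
    DReach {k | k ∈ blk z R ∧ k ∉ D.edges ∧ z.1 < (tgt k).1} (dtgt g) (dtgt g')
  /-- the lower left corner is far -/
  far : (R : ℤ) ≤ sd (D.l, 0) z

theorem hl_bottom {D : Dm} {R : ℕ} (hR : 1 ≤ R) (hl : D.l + R + 1 ≤ 0)
    (hr : (R : ℤ) + 1 ≤ D.r) (hh : (R : ℤ) + 1 ≤ D.h) : HL D (0, 0) R := by
  have hR' : (1 : ℤ) ≤ R := by exact_mod_cast hR
  refine ⟨?_, ?_, ?_⟩
  · intro F u hu g hg hgD ht hor
    have hb := bd_of_not hu hor hgD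
    obtain ⟨a, b⟩ := u
    have hbox := mem_blk.mp hg
    unfold inR at hu
    simp only at hu hb ht
    obtain ⟨x, y, c⟩ := g
    have h0 : b = 0 ∧ a ≤ 0 := by
      rw [sd_le, sd_le] at hbox
      cases c <;> rcases hor with h | h <;>
        simp only [src_mk, tgt_false, tgt_true, Prod.mk.injEq] at h hbox ht <;> omega
    obtain ⟨rfl, ha⟩ := h0
    exact wired_bottom F hu.1.1 ha
  · intro g g' h1 h2 h3 h1' h2' h3'
    have e1 : ∀ x y, ((x, y, true) : Edg) ∈ {k : Edg | k ∈ blk (0, 0) R ∧ k ∉ D.edges ∧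
        (0 : ℤ) < (tgt k).1} ↔ ((0 : ℤ) ≤ x ∧ x ≤ R - 1) ∧ (-R : ℤ) ≤ y ∧ y ≤ -1 := by
      intro x y
      simp only [Set.mem_ofPred_eq, blk, Dm.edges, mem_RE_true, tgt_true]
      omega
    have e2 : ∀ x y, ((x, y, false) : Edg) ∈ {k : Edg | k ∈ blk (0, 0) R ∧ k ∉ D.edges ∧
        (0 : ℤ) < (tgt k).1} ↔ ((1 : ℤ) ≤ x ∧ x ≤ R) ∧ (-R : ℤ) ≤ y ∧ y ≤ -1 := by
      intro x y
      simp only [Set.mem_ofPred_eq, blk, Dm.edges, mem_RE_false, tgt_false]
      omega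
    have key : ∀ k ∈ {k : Edg | k ∈ blk (0, 0) R ∧ k ∉ D.edges ∧ (0 : ℤ) < (tgt k).1},
        DReach {k : Edg | k ∈ blk (0, 0) R ∧ k ∉ D.edges ∧ (0 : ℤ) < (tgt k).1}
          (dtgt k) (0, -1) := by
      intro k hk
      exact grid_join e1 e2 (by omega) (by omega) (by omega) (by omega) (by omega) (by omega) hk
    exact (key g ⟨h1, h2, h3⟩).trans (key g' ⟨h1', h2', h3'⟩).symm
  · rw [le_sd]
    simp only
    omega

theorem hl_top {D : Dm} (hD : D.Ok) {R : ℕ} (hR : 1 ≤ R) (hl : D.l + R + 1 ≤ D.t)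
    (hr : D.t + (R : ℤ) + 1 ≤ D.r) (hh : (R : ℤ) + 1 ≤ D.h) : HL D (D.t, D.h) R := by
  have hR' : (1 : ℤ) ≤ R := by exact_mod_cast hR
  refine ⟨?_, ?_, ?_⟩
  · intro F u hu g hg hgD ht hor
    have hb := bd_of_not hu hor hgD
    obtain ⟨a, b⟩ := u
    have hbox := mem_blk.mp hg
    unfold inR at hu
    simp only at hu hb ht
    obtain ⟨x, y, c⟩ := g
    have h0 : b = D.h ∧ a ≤ D.t := by
      rw [sd_le, sd_le] at hbox
      cases c <;> rcases hor with h | h <;>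
        simp only [src_mk, tgt_false, tgt_true, Prod.mk.injEq] at h hbox ht <;> omega
    obtain ⟨rfl, ha⟩ := h0
    exact wired_top hD F hu.1.1 ha
  · intro g g' h1 h2 h3 h1' h2' h3'
    have e1 : ∀ x y, ((x, y, true) : Edg) ∈ {k : Edg | k ∈ blk (D.t, D.h) R ∧ k ∉ D.edges ∧
        D.t < (tgt k).1} ↔ (D.t ≤ x ∧ x ≤ D.t + R - 1) ∧ D.h + 1 ≤ y ∧ y ≤ D.h + R := by
      intro x y
      simp only [Set.mem_ofPred_eq, blk, Dm.edges, mem_RE_true, tgt_true]
      omega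
    have e2 : ∀ x y, ((x, y, false) : Edg) ∈ {k : Edg | k ∈ blk (D.t, D.h) R ∧ k ∉ D.edges ∧
        D.t < (tgt k).1} ↔ (D.t + 1 ≤ x ∧ x ≤ D.t + R) ∧ D.h ≤ y ∧ y ≤ D.h + R - 1 := by
      intro x y
      simp only [Set.mem_ofPred_eq, blk, Dm.edges, mem_RE_false, tgt_false]
      omega
    have key : ∀ k ∈ {k : Edg | k ∈ blk (D.t, D.h) R ∧ k ∉ D.edges ∧ D.t < (tgt k).1},
        DReach {k : Edg | k ∈ blk (D.t, D.h) R ∧ k ∉ D.edges ∧ D.t < (tgt k).1}
          (dtgt k) (D.t, D.h) := by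
      intro k hk
      exact grid_join e1 e2 (by omega) (by omega) (by omega) (by omega) (by omega) (by omega) hk
    exact (key g ⟨h1, h2, h3⟩).trans (key g' ⟨h1', h2', h3'⟩).symm
  · rw [le_sd]
    simp only
    omega

theorem key {D : Dm} (hD : D.Ok) {G B : Finset Edg} (hG : G ⊆ D.edges) {z : Vtx}
    {d R ρ : ℕ} (hN : HL D z R) (hdR : d + 4 ≤ R) (hRρ : R + d + 4 ≤ ρ)
    (hB : B ⊆ blk z d) (hbad : BadV D ρ (G \ B) G) : OAr z d R G ∧ DAr D z d R G := by
  classical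
  obtain ⟨e, heG, heF, x, v, y, hEn, hy, hx, hv, hyG, w, hvw, hreach⟩ := hbad
  have heD : e ∈ D.edges := hG heG
  have heB : e ∈ B := by
    by_contra h
    exact heF (Or.inl (by simp [heG, h]))
  have heb : e ∈ blk z d := hB heB
  have hends := mem_blk.mp heb
  have hxz : sd x z ≤ d := by
    rcases hEn with ⟨rfl, _⟩ | ⟨rfl, _⟩
    · exact hends.1
    · exact hends.2
  have hvz : sd v z ≤ d := by
    rcases hEn with ⟨_, rfl⟩ | ⟨_, rfl⟩
    · exact hends.2
    · exact hends.1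
  have hdR' : (d : ℤ) + 4 ≤ R := by exact_mod_cast hdR
  have hRρ' : (R : ℤ) + d + 4 ≤ ρ := by exact_mod_cast hRρ
  have hAN : ∀ g, g ∈ blk z R → g ∉ blk z d → g ∈ AN z d R := fun g h1 h2 =>
    Finset.mem_sdiff.mpr ⟨h1, h2⟩
  set C : Set Vtx := D.clu (G \ B) with hC
  -- the excursion
  set P : Set Edg := {g | g ∈ G ∧ src g ∉ C ∧ tgt g ∉ C} with hP
  have hrP : Reach P v w := by
    refine hreach.mono ?_
    rintro g ⟨h1, h2, h3⟩
    refine ⟨?_, h2, h3⟩
    rcases h1 with h1 | h1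
    · exact h1
    · exact absurd (wir_clu hD _ h1).1 h2
  have hwz : (R : ℤ) ≤ sd w z := by
    rw [le_sd] at hvw ⊢
    rw [sd_le] at hvz
    omega
  have hxw : Reach (D.cfg (G \ B)) x (D.l, 0) := by
    have h1 : Reach (D.cfg (G \ B)) (0, 0) x := hx
    have h2 : Reach (D.cfg (G \ B)) (0, 0) (D.l, 0) := wired_bottom (G \ B) le_rfl hD.l_neg.le
    exact h1.symm.trans h2
  refine ⟨?_, ?_⟩
  · obtain ⟨w2, hw2, hr2⟩ := Pool.Agent.N954.PN.first_exit (z := z) (R := R) (by omega) hrP hwz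
    obtain ⟨u2, hu2, hru2, hr2'⟩ := last_exit hvz hr2
    refine ⟨u2, w2, hu2, hw2.ge, hr2'.mono ?_⟩
    rintro g ⟨⟨⟨h1, _⟩, h2⟩, h3⟩
    exact ⟨h1, hAN g h2 h3⟩
  · -- dual arm
    set W : Set Edg := {g | g ∉ D.edges ∧ (tgt g).1 ≤ z.1} with hW
    set F2 : Set Edg := (D.cfg (G \ B) ∪ W ∪ P) ∩ ↑(blk z R) with hF2
    have hcfgD : D.cfg (G \ B) ⊆ ↑D.edges := by
      rintro g (h1 | h1)
      · exact hG (Finset.mem_sdiff.mp h1).1
      · obtain ⟨k1, k2, k3, k4, k5⟩ := hD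
        obtain ⟨a, b, _ | _⟩ := g
        · unfold Dm.wir at h1
          simp only [Set.mem_ofPred_eq, Bool.false_eq_true, false_and, true_and, false_or,
            or_false] at h1
          rw [Finset.mem_coe, Dm.edges, mem_RE_false]
          omega
        · unfold Dm.wir at h1
          simp only [Set.mem_ofPred_eq, Bool.true_eq_false, false_and, true_and, false_or,
            or_false] at h1
          rw [Finset.mem_coe, Dm.edges, mem_RE_true]
          omega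
    have hF2D : ∀ g ∈ F2, g ∈ D.edges ∨ g ∈ W := by
      rintro g ⟨(h1 | h1) | h1, _⟩
      · exact Or.inl (hcfgD h1)
      · exact Or.inr h1
      · exact Or.inl (hG h1.1)
    have hF2Q : F2 ⊆ ↑(RE (z.1 - R) (z.1 + R) (z.2 - R) (z.2 + R)) := fun g hg => hg.2
    have heQ : e ∈ RE (z.1 - R) (z.1 + R) (z.2 - R) (z.2 + R) := by
      have : e ∈ blk z R := mem_blk.mpr ⟨by omega, by omega⟩
      exact this
    have heF2 : e ∉ F2 := by
      rintro ⟨(h | h) | h, _⟩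
      · exact heF h
      · exact h.1 heD
      · rcases hEn with ⟨h1, _⟩ | ⟨h1, _⟩
        · exact h.2.1 (h1 ▸ hx)
        · exact h.2.2 (h1 ▸ hx)
    have hxb : ∃ w' ∈ bdR (z.1 - R) (z.1 + R) (z.2 - R) (z.2 + R), Reach F2 x w' := by
      obtain ⟨w', h2, h3⟩ := exitP' (z := z) (R := R) hxw (by omega) hN.far
      exact ⟨w', h2, h3.mono (Set.inter_subset_inter_left _ (fun g hg => Or.inl (Or.inl hg)))⟩
    have hvb : ∃ w' ∈ bdR (z.1 - R) (z.1 + R) (z.2 - R) (z.2 + R), Reach F2 v w' := by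
      obtain ⟨w', h2, h3⟩ := exitP' (z := z) (R := R) hrP (by omega) hwz
      exact ⟨w', h2, h3.mono (Set.inter_subset_inter_left _ (fun g hg => Or.inr hg))⟩
    -- the ends are not connected
    have hvin : inR D.l D.r 0 D.h v := by
      have h1 : inR D.l D.r 0 D.h (src e) ∧ inR D.l D.r 0 D.h (tgt e) := by
        have := clu_cfg_in hD (F := G) hG (e := e) (Or.inl heG)
        exact this
      rcases hEn with ⟨_, h⟩ | ⟨_, h⟩
      · rw [h]; exact h1.2
      · rw [h]; exact h1.1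
    have hFD : G \ B ⊆ D.edges := Finset.sdiff_subset.trans hG
    have hinv : ∀ u, Reach F2 v u → u ∉ C ∧ inR D.l D.r 0 D.h u := by
      intro u hu
      unfold Reach at hu
      induction hu with
      | refl => exact ⟨hv, hvin⟩
      | @tail a b _ hst ih =>
        obtain ⟨g, ⟨hg, hgR⟩, hor⟩ := hst
        have hends : (src g = a ∨ tgt g = a) := by
          rcases hor with ⟨h2, _⟩ | ⟨_, h2⟩
          · exact Or.inl h2
          · exact Or.inr h2
        rcases hg with (hg | hg) | hg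
        · have h5 : b ∉ C := by
            intro hb
            apply ih.1
            have hb' : Reach (D.cfg (G \ B)) (0, 0) b := hb
            exact hb'.trans (Adj.reach ⟨g, hg, hor.symm⟩)
          refine ⟨h5, ?_⟩
          have h6 := clu_cfg_in hD hFD hg
          rcases hor with ⟨_, h2⟩ | ⟨h2, _⟩
          · rw [← h2]; exact h6.2
          · rw [← h2]; exact h6.1
        · exact absurd (hN.wired (G \ B) a ih.2 g hgR hg.1 hg.2 hends) ih.1
        · have h6 := clu_cfg_in hD (F := G) hG (e := g) (Or.inl hg.1)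
          rcases hor with ⟨_, h2⟩ | ⟨h2, _⟩
          · rw [← h2]; exact ⟨hg.2.2, h6.2⟩
          · rw [← h2]; exact ⟨hg.2.1, h6.1⟩
    have hnxv : ¬ Reach F2 v x := fun h => (hinv x h).1 hx
    have hnst : ¬ Reach F2 (src e) (tgt e) := by
      rcases hEn with ⟨h1, h2⟩ | ⟨h1, h2⟩
      · rw [← h1, ← h2]; exact fun h => hnxv h.symm
      · rw [← h1, ← h2]; exact hnxv
    have hsb : ∃ w' ∈ bdR (z.1 - R) (z.1 + R) (z.2 - R) (z.2 + R), Reach F2 (src e) w' := by
      rcases hEn with ⟨h1, h2⟩ | ⟨h1, h2⟩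
      · rw [← h1]; exact hxb
      · rw [← h2]; exact hvb
    have htb : ∃ w' ∈ bdR (z.1 - R) (z.1 + R) (z.2 - R) (z.2 + R), Reach F2 (tgt e) w' := by
      rcases hEn with ⟨h1, h2⟩ | ⟨h1, h2⟩
      · rw [← h2]; exact hvb
      · rw [← h1]; exact hxb
    have hsep := dual_sep hF2Q heQ heF2 hsb htb
    obtain ⟨g0, hg0, hd0⟩ := dual_arm hF2Q heQ heF2 hsb htb hnst (Or.inl ⟨rfl, rfl⟩)
    obtain ⟨g1, hg1, hd1⟩ := dual_arm hF2Q heQ heF2 hsb htb hnst (Or.inr ⟨rfl, rfl⟩)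
    set S : Set Edg := (↑(RE (z.1 - R) (z.1 + R) (z.2 - R) (z.2 + R)) \ F2) \ {e} with hS
    have hSU : {k : Edg | k ∈ blk z R ∧ k ∉ D.edges ∧ z.1 < (tgt k).1} ⊆ S := by
      rintro g ⟨h1, h2, h3⟩
      refine ⟨⟨h1, fun h4 => ?_⟩, ?_⟩
      · rcases hF2D g h4 with h5 | h5
        · exact h2 h5
        · exact absurd h5.2 (not_le.mpr h3)
      · intro h4
        rw [Set.mem_singleton_iff] at h4
        rw [h4] at h2
        exact h2 heD
    have hUS : ∀ g ∈ S \ ↑D.edges, g ∈ blk z R ∧ g ∉ D.edges ∧ z.1 < (tgt g).1 := by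
      rintro g ⟨h1, h2⟩
      refine ⟨h1.1.1, h2, ?_⟩
      by_contra h3
      exact h1.1.2 ⟨Or.inl (Or.inr ⟨h2, not_lt.mp h3⟩), h1.1.1⟩
    have hout : ∀ f g : Vtx, sd f z ≤ d + 1 → g ∈ outF (z.1 - R) (z.1 + R) (z.2 - R) (z.2 + R) →
        DReach (S ∩ ↑D.edges) f g → DAr D z d R G := by
      intro f g hf hg hfg
      obtain ⟨f', hf', hfg'⟩ := dlast_exit hf hfg
      refine ⟨f', g, hf', outF_far hg, hfg'.mono ?_⟩
      rintro g' ⟨⟨h1, h2⟩, h3⟩
      refine ⟨h2, ?_, hAN g' h1.1.1 h3⟩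
      intro h4
      refine h1.1.2 ⟨Or.inl (Or.inl (Or.inl ?_)), h1.1.1⟩
      exact Finset.mem_coe.mpr (Finset.mem_sdiff.mpr ⟨h4, fun h5 => h3 (hB h5)⟩)
    have hfe := face_blk heb
    rcases dual_dich (E := ↑D.edges) hd0 with h0 | ⟨e0, he0, h0⟩
    · exact hout _ g0 hfe.1 hg0 h0
    · rcases dual_dich (E := ↑D.edges) hd1 with h1 | ⟨e1, he1, h1⟩
      · exact hout _ g1 hfe.2 hg1 h1
      · exfalso
        apply hsep
        refine h0.trans (DReach.trans ?_ h1.symm)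
        obtain ⟨a1, a2, a3⟩ := hUS e0 he0
        obtain ⟨b1, b2, b3⟩ := hUS e1 he1
        exact (hN.free e0 e1 a1 a2 a3 b1 b2 b3).mono hSU

theorem hl_pts {D : Dm} (hD : D.Ok) {i : Fin 6} (hi : 4 ≤ (i : ℕ)) {R : ℕ} (hR : 1 ≤ R)
    (hfar : ∀ j : Fin 6, j ≠ i → 2 * (R : ℤ) + 8 ≤ sd (pts D i) (pts D j))
    (hh : 2 * (R : ℤ) + 8 ≤ D.h) : HL D (pts D i) R := by
  obtain ⟨k1, k2, k3, k4, k5⟩ := hD
  have hi' : i = 4 ∨ i = 5 := by
    revert hi
    fin_cases i <;> simp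
  rcases hi' with rfl | rfl
  · have h2 := hfar 2 (by decide)
    have h3 := hfar 3 (by decide)
    have e2 : pts D 2 = (D.l, D.h) := rfl
    have e3 : pts D 3 = (D.r, D.h) := rfl
    have e4 : pts D 4 = (D.t, D.h) := rfl
    rw [e4, e2, le_sd] at h2
    rw [e4, e3, le_sd] at h3
    rw [e4]
    simp only at h2 h3
    exact hl_top ⟨k1, k2, k3, k4, k5⟩ hR (by omega) (by omega) (by omega)
  · have h0 := hfar 0 (by decide)
    have h1 := hfar 1 (by decide)
    have e0 : pts D 0 = (D.l, 0) := rfl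
    have e1 : pts D 1 = (D.r, 0) := rfl
    have e5 : pts D 5 = (0, 0) := rfl
    rw [e5, e0, le_sd] at h0
    rw [e5, e1, le_sd] at h1
    rw [e5]
    simp only at h0 h1
    exact hl_bottom hR (by omega) (by omega) (by omega)

theorem main : S_EV := by
  intro D hD G B hG i hi d R ρ _ hdR hρ hB hfar hh hbad
  exact key hD hG (hl_pts hD hi (by omega) hfar hh) hdR hρ hB hbad

end Pool.Agent.N263.PN.EV
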